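import Pool.Agent.Work.MP_4eca41_an.Defs

/-!
# Block G: the transform is of class C^2

STATEMENT FIXED (helper49).

PROOF.  `u z = W2 (P z, z.2) + P z * z.1`.  `w1 y = fderiv ℝ W2 y (1, 0)`, `w2 y = fderiv ℝ W2 y (0, 1)` are `C^1`; `Dp W2 y = w1 y`.  By the chain rule `u` is differentiable with
`fderiv u z v = w1 (P z, z.2) * (P' v) + w2 (P z, z.2) * v.2 + (P' v) * z.1 + P z * v.1`, `P' = fderiv ℝ P z`; as `w1 (P z, z.2) = - z.1` this is `P z * v.1 + w2 (P z, z.2) * v.2`.  So `fderiv u z = P z • fst + w2 (P z, z.2) • snd`, a `C^1` function of `z`: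
`contDiff_succ_iff_fderiv` (`2 = 1 + 1`).
-/

set_option autoImplicit false

open Set

namespace Pool.Agent.MP_4eca41.G

theorem c2 (W2 : ℝ × ℝ → ℝ) (h2 : ContDiff ℝ 2 W2) (P : ℝ × ℝ → ℝ) (hP : ContDiff ℝ 1 P)
    (he : ∀ z : ℝ × ℝ, Dp W2 (P z, z.2) = -z.1) :
    ContDiff ℝ 2 fun z : ℝ × ℝ => W2 (P z, z.2) + P z * z.1 := by
  have hd : Differentiable ℝ W2 := h2.differentiable (by norm_num)
  have hPd : Differentiable ℝ P := hP.differentiable (by norm_num)
  have hDp : ∀ y : ℝ × ℝ, Dp W2 y = fderiv ℝ W2 y (1, 0) := by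
    intro y
    have h1 : HasDerivAt (fun p : ℝ => ((p, y.2) : ℝ × ℝ)) (1, 0) y.1 :=
      (hasDerivAt_id y.1).prodMk (hasDerivAt_const _ _)
    have h3 : HasFDerivAt W2 (fderiv ℝ W2 y) (y.1, y.2) := (hd y).hasFDerivAt
    exact (h3.comp_hasDerivAt y.1 h1).deriv
  have hF : ∀ z : ℝ × ℝ, HasFDerivAt (fun z : ℝ × ℝ => W2 (P z, z.2) + P z * z.1)
      (P z • ContinuousLinearMap.fst ℝ ℝ ℝ +
        (fderiv ℝ W2 (P z, z.2) (0, 1)) • ContinuousLinearMap.snd ℝ ℝ ℝ) z := by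
    intro z
    have h1 : HasFDerivAt (fun z : ℝ × ℝ => ((P z, z.2) : ℝ × ℝ))
        ((fderiv ℝ P z).prod (ContinuousLinearMap.snd ℝ ℝ ℝ)) z :=
      (hPd z).hasFDerivAt.prodMk hasFDerivAt_snd
    have h3 : HasFDerivAt W2 (fderiv ℝ W2 (P z, z.2)) (P z, z.2) := (hd _).hasFDerivAt
    have h4 := (h3.comp z h1).add ((hPd z).hasFDerivAt.mul hasFDerivAt_fst)
    refine h4.congr_fderiv ?_
    ext
    · simp only [ContinuousLinearMap.add_comp, ContinuousLinearMap.add_apply,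
        ContinuousLinearMap.coe_comp, Function.comp_apply, ContinuousLinearMap.inl_apply,
        ContinuousLinearMap.prod_apply, ContinuousLinearMap.coe_snd', ContinuousLinearMap.coe_fst',
        ContinuousLinearMap.smul_apply, smul_eq_mul]
      have e : ((fderiv ℝ P z) (1, 0), (0 : ℝ)) =
          (fderiv ℝ P z (1, 0)) • ((1 : ℝ), (0 : ℝ)) := by
        ext <;> simp
      rw [e, map_smul, ← hDp (P z, z.2), he z, smul_eq_mul]
      ring
    · simp only [ContinuousLinearMap.add_comp, ContinuousLinearMap.add_apply,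
        ContinuousLinearMap.coe_comp, Function.comp_apply, ContinuousLinearMap.inr_apply,
        ContinuousLinearMap.prod_apply, ContinuousLinearMap.coe_snd', ContinuousLinearMap.coe_fst',
        ContinuousLinearMap.smul_apply, smul_eq_mul]
      have e : ((fderiv ℝ P z) (0, 1), (1 : ℝ)) =
          (fderiv ℝ P z (0, 1)) • ((1 : ℝ), (0 : ℝ)) + ((0 : ℝ), (1 : ℝ)) := by
        ext <;> simp
      rw [e, map_add, map_smul, ← hDp (P z, z.2), he z, smul_eq_mul]
      ring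
  have h11 : (2 : WithTop ℕ∞) = 1 + 1 := by norm_num
  rw [h11, contDiff_succ_iff_fderiv]
  refine ⟨fun z => (hF z).differentiableAt, by simp, ?_⟩
  have hfd : fderiv ℝ (fun z : ℝ × ℝ => W2 (P z, z.2) + P z * z.1) = fun z =>
      (P z • ContinuousLinearMap.fst ℝ ℝ ℝ +
        (fderiv ℝ W2 (P z, z.2) (0, 1)) • ContinuousLinearMap.snd ℝ ℝ ℝ) :=
    funext fun z => (hF z).fderiv
  rw [hfd]
  have h5 : ContDiff ℝ 1 (fderiv ℝ W2) := h2.fderiv_right (by norm_num)
  have h6 : ContDiff ℝ 1 fun z : ℝ × ℝ => ((P z, z.2) : ℝ × ℝ) := hP.prodMk contDiff_snd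
  have h7 : ContDiff ℝ 1 fun z : ℝ × ℝ => fderiv ℝ W2 (P z, z.2) (0, 1) :=
    (h5.comp h6).clm_apply contDiff_const
  exact (hP.smul contDiff_const).add (h7.smul contDiff_const)

end Pool.Agent.MP_4eca41.G
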