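import Pool.Agent.Work.MP_4eca41_an.Defs
import Pool.Agent.Work.MP_4eca41_an.T.Tay

/-!
# Block G: the maximizer as a function of class C^1

STATEMENT FIXED (helper49).

PROOF.  `W2` is `C^2`; `w1 (p, t) = fderiv ℝ W2 (p, t) (1, 0)` is the derivative of `p ↦ W2 (p, t)`; it is `C^1` in `(p, t)`.  From `hs` with `h → 0` (or: `p ↦ W2 (p, t) + c/2 * p^2` has nonpositive second differences, is continuous, hence concave) the function
`p ↦ w1 (p, t) + c * p` is antitone.  So for every `t` the function `p ↦ - w1 (p, t)` is continuous, strictly increasing with `- w1 (p', t) + w1 (p, t) ≥ c (p' - p)` for `p ≤ p'`, and onto `ℝ` (intermediate value theorem): for every `(x, t)` there is exactly one `P (x, t)` with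
`w1 (P (x, t), t) = - x`.
`F (p, t) = (- w1 (p, t), t)` is `C^1` and bijective on the plane; its derivative at `(p, t)` is the linear map `(h, k) ↦ (- w11 h - w12 k, k)` with `w11 (p, t) ≤ - c` (derivative of the function `w1 + c p`, antitone in `p`), so it is invertible (continuous linear equivalence of
the plane, determinant `- w11 ≥ c`).  The inverse function `G (x, t) = (P (x, t), t)` is `C^1`: `ContDiffAt.to_localInverse` at every point, and the local inverse coincides with `G` near `F q` because `F` is injective (or: `G` is continuous since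
`|P (x, t) - P (x', t')| ≤ (|x - x'| + |w1 (P (x,t), t) - w1 (P (x,t), t')|) / c`, then `HasStrictFDerivAt.to_local_left_inverse` / `OpenPartialHomeomorph.contDiffAt_symm`).  The inequality: `u = P (x,t)`, `u' = P (x', t')`:
`c |u - u'| ≤ |w1 (u, t') - w1 (u', t')| = |w1 (u, t') + x'| ≤ |w1 (u, t') - w1 (u, t)| + |x - x'|`.
-/

set_option autoImplicit false

open Set

namespace Pool.Agent.MP_4eca41.G

theorem maxi (W2 : ℝ × ℝ → ℝ) (h2 : ContDiff ℝ 2 W2)
    (hs : ∃ c : ℝ, 0 < c ∧ ∀ (y : ℝ × ℝ) (h : ℝ), D2 W2 (h, 0) y ≤ -c * h ^ 2) :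
    ∃ P : ℝ × ℝ → ℝ, ContDiff ℝ 1 P ∧ ∀ (z : ℝ × ℝ) (p : ℝ), Dp W2 (p, z.2) = -z.1 ↔ p = P z := by
  obtain ⟨c, hc, hs⟩ := hs
  set w1 : ℝ × ℝ → ℝ := fun y => fderiv ℝ W2 y (1, 0) with hw1
  have hw1c : ContDiff ℝ 1 w1 :=
    (h2.fderiv_right (m := 1) (by norm_num)).clm_apply contDiff_const
  have hd2 : Differentiable ℝ W2 := h2.differentiable (by norm_num)
  have hd1 : Differentiable ℝ w1 := hw1c.differentiable (by norm_num)
  have hDp : ∀ p t, Dp W2 (p, t) = w1 (p, t) := by
    intro p t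
    have h := (hd2 (p, t)).hasFDerivAt.comp_hasDerivAt p
      ((hasDerivAt_id p).prodMk (hasDerivAt_const p t))
    exact h.deriv
  have hder : ∀ p t, HasDerivAt (fun p => w1 (p, t)) (fderiv ℝ w1 (p, t) (1, 0)) p := by
    intro p t
    have h := (hd1 (p, t)).hasFDerivAt.comp_hasDerivAt p
      ((hasDerivAt_id p).prodMk (hasDerivAt_const p t))
    exact h
  have hneg : ∀ z, fderiv ℝ w1 z (1, 0) ≤ -c := by
    intro z
    have hdd : DifferentiableAt ℝ (fderiv ℝ W2) z :=
      (h2.fderiv_right (m := 1) (by norm_num)).differentiable (by norm_num) z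
    have e : fderiv ℝ w1 z (1, 0) = fderiv ℝ (fderiv ℝ W2) z (1, 0) (1, 0) := by
      have h := (hdd.hasFDerivAt.clm_apply (hasFDerivAt_const ((1 : ℝ), (0 : ℝ)) z)).fderiv
      rw [hw1, h]
      simp
    rw [e]
    by_contra hlt
    push Not at hlt
    set A : ℝ := fderiv ℝ (fderiv ℝ W2) z (1, 0) (1, 0) with hA
    obtain ⟨ρ, hρ, ht⟩ := T.tay2 W2 z h2.contDiffAt ((A + c) / 2) (by linarith)
    have h1 := ht (ρ, 0) (by simp [sq])
    have h3 := hs z ρ
    have e2 : iteratedFDeriv ℝ 2 W2 z ![(ρ, 0), (ρ, 0)] = ρ ^ 2 * A := by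
      rw [iteratedFDeriv_two_apply]
      have e3 : ((ρ, 0) : ℝ × ℝ) = ρ • ((1 : ℝ), (0 : ℝ)) := by simp
      simp only [Matrix.cons_val_zero, Matrix.cons_val_one]
      rw [e3, map_smul, map_smul, smul_apply]
      simp only [smul_eq_mul]
      rw [hA]
      ring
    have e4 : ‖((ρ, 0) : ℝ × ℝ)‖ = ρ := by
      simp [Prod.norm_mk, abs_of_pos hρ, hρ.le]
    rw [e2, e4] at h1
    have h4 := (abs_le.1 h1).1
    have h5 : 0 < ρ ^ 2 := by positivity
    nlinarith
  have hanti : ∀ t, StrictAnti fun p => w1 (p, t) := by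
    intro t
    apply strictAnti_of_deriv_neg
    intro p
    rw [(hder p t).deriv]
    linarith [hneg (p, t)]
  have hanti2 : ∀ t, Antitone fun p => w1 (p, t) + c * p := by
    intro t
    have hd : ∀ p, HasDerivAt (fun p => w1 (p, t) + c * p)
        (fderiv ℝ w1 (p, t) (1, 0) + c * 1) p :=
      fun p => (hder p t).add ((hasDerivAt_id p).const_mul c)
    apply antitone_of_deriv_nonpos
    · exact fun p => (hd p).differentiableAt
    · intro p
      rw [(hd p).deriv]
      linarith [hneg (p, t)]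
  have hsurj : ∀ x t, ∃ p, w1 (p, t) = x := by
    intro x t
    have hcont : Continuous fun p => w1 (p, t) :=
      hw1c.continuous.comp (continuous_id.prodMk continuous_const)
    have := mem_range_of_exists_le_of_exists_ge (c := x) hcont
      ⟨|w1 (0, t) - x| / c, by
        have h0 : 0 ≤ |w1 (0, t) - x| / c := by positivity
        have h := hanti2 t h0
        simp only [mul_zero, add_zero] at h
        have e : c * (|w1 (0, t) - x| / c) = |w1 (0, t) - x| := by field_simp
        rw [e] at h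
        have := le_abs_self (w1 (0, t) - x)
        show w1 (|w1 (0, t) - x| / c, t) ≤ x
        linarith⟩
      ⟨-(|w1 (0, t) - x| / c), by
        have h0 : -(|w1 (0, t) - x| / c) ≤ 0 := by
          have : 0 ≤ |w1 (0, t) - x| / c := by positivity
          linarith
        have h := hanti2 t h0
        simp only [mul_zero, add_zero] at h
        have e : c * (-(|w1 (0, t) - x| / c)) = -|w1 (0, t) - x| := by field_simp
        rw [e] at h
        have := neg_abs_le (w1 (0, t) - x)
        show x ≤ w1 (-(|w1 (0, t) - x| / c), t)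
        linarith⟩
    exact this
  choose P0 hP0 using hsurj
  refine ⟨fun z => P0 (-z.1) z.2, ?_, ?_⟩
  swap
  · intro z p
    rw [hDp]
    constructor
    · intro h
      exact (hanti z.2).injective (h.trans (hP0 (-z.1) z.2).symm)
    · intro h
      rw [h]
      exact hP0 (-z.1) z.2
  set F : ℝ × ℝ → ℝ × ℝ := fun y => (-w1 y, y.2) with hF
  have hFc : ContDiff ℝ 1 F := hw1c.neg.prodMk contDiff_snd
  set G : ℝ × ℝ → ℝ × ℝ := fun z => (P0 (-z.1) z.2, z.2) with hG
  have hGF : ∀ y, G (F y) = y := by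
    intro y
    have h : P0 (-(-w1 y)) y.2 = y.1 := by
      apply (hanti y.2).injective
      show w1 (P0 (-(-w1 y)) y.2, y.2) = w1 (y.1, y.2)
      rw [hP0, neg_neg]
    show (P0 (-(-w1 y)) y.2, y.2) = y
    rw [h]
  have hFG : ∀ z, F (G z) = z := by
    intro z
    show (-w1 (P0 (-z.1) z.2, z.2), z.2) = z
    rw [hP0, neg_neg]
  suffices hGc : ContDiff ℝ 1 G by
    exact contDiff_fst.comp hGc
  rw [contDiff_iff_contDiffAt]
  intro z
  set y := G z with hy
  have hz : F y = z := hFG z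
  set L : ℝ × ℝ →L[ℝ] ℝ := fderiv ℝ w1 y with hL
  set α : ℝ := L (1, 0) with hα
  set β : ℝ := L (0, 1) with hβ
  have hα0 : α ≠ 0 := by
    have := hneg y
    have h' : α ≤ -c := this
    intro h0
    rw [h0] at h'
    linarith
  have hLv : ∀ v : ℝ × ℝ, L v = v.1 * α + v.2 * β := by
    intro v
    have e : v = v.1 • ((1 : ℝ), (0 : ℝ)) + v.2 • ((0 : ℝ), (1 : ℝ)) := by
      ext <;> simp
    conv_lhs => rw [e]
    rw [map_add, map_smul, map_smul]
    simp only [smul_eq_mul]
    rfl
  let M : ℝ × ℝ →L[ℝ] ℝ × ℝ := (-L).prod (ContinuousLinearMap.snd ℝ ℝ ℝ)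
  let N : ℝ × ℝ →L[ℝ] ℝ × ℝ :=
    ((-α⁻¹) • ContinuousLinearMap.fst ℝ ℝ ℝ - (β / α) • ContinuousLinearMap.snd ℝ ℝ ℝ).prod
      (ContinuousLinearMap.snd ℝ ℝ ℝ)
  have hMv : ∀ v : ℝ × ℝ, M v = (-(v.1 * α + v.2 * β), v.2) := by
    intro v
    show (-(L v), v.2) = _
    rw [hLv]
  have hNv : ∀ v : ℝ × ℝ, N v = (-α⁻¹ * v.1 - β / α * v.2, v.2) := fun v => rfl
  let e : (ℝ × ℝ) ≃L[ℝ] ℝ × ℝ := ContinuousLinearEquiv.equivOfInverse M N
    (by
      intro v
      rw [hMv, hNv]
      ext
      · show -α⁻¹ * -(v.1 * α + v.2 * β) - β / α * v.2 = v.1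
        field_simp
        ring
      · rfl)
    (by
      intro v
      rw [hNv, hMv]
      ext
      · show -((-α⁻¹ * v.1 - β / α * v.2) * α + v.2 * β) = v.1
        field_simp
        ring
      · rfl)
  have heM : (e : ℝ × ℝ →L[ℝ] ℝ × ℝ) = M := rfl
  have hFd : HasFDerivAt F (e : ℝ × ℝ →L[ℝ] ℝ × ℝ) y := by
    rw [heM]
    exact ((hd1 y).hasFDerivAt.neg).prodMk hasFDerivAt_snd
  have h1 := hFc.contDiffAt.to_localInverse hFd one_ne_zero
  have h3 := (hFc.contDiffAt.hasStrictFDerivAt' hFd one_ne_zero).localInverse_unique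
    (g := G) (Filter.Eventually.of_forall hGF)
  rw [hz] at h1 h3
  exact h1.congr_of_eventuallyEq h3

end Pool.Agent.MP_4eca41.G
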