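import Pool.Agent.Work.MP_4eca41_an.T.T1

/-!
# Block G: value of the supremum

STATEMENT FIXED (helper49).

PROOF.  For fixed `t` the function `φ p = W2 (p, t) + p * x` is concave (`D2 W2 (h, 0) ≤ 0` and continuity: a continuous function with nonpositive second differences is concave, e.g. `t1_convex` of `T.T1` for `-φ`, or midpoint concavity), differentiable, and its derivative at
`p0` is `Dp W2 (p0, t) + x = 0`; so `φ p ≤ φ p0` for all `p` (tangent of a concave function: `ConcaveOn.le_slope...` or `IsMinOn` for the convex function `-φ`).  Hence the supremum is `φ p0` (`ciSup_eq_of_forall_le_of_forall_lt_exists_gt`, or `le_antisymm (ciSup_le ..) (le_ciSup ..)`).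
-/

set_option autoImplicit false

open Set

namespace Pool.Agent.MP_4eca41.G

theorem sup_eq (W2 : ℝ × ℝ → ℝ) (h2 : ContDiff ℝ 2 W2)
    (hs : ∀ (y : ℝ × ℝ) (h : ℝ), D2 W2 (h, 0) y ≤ 0) (z : ℝ × ℝ) (p0 : ℝ)
    (hp : Dp W2 (p0, z.2) = -z.1) :
    PU W2 z = W2 (p0, z.2) + p0 * z.1 ∧ ∀ p, W2 (p, z.2) + p * z.1 ≤ PU W2 z := by
  have hsec : ContDiff ℝ 2 (fun p : ℝ => W2 (p, z.2)) := h2.comp (by fun_prop)
  have hdiff : Differentiable ℝ (fun p : ℝ => W2 (p, z.2)) := hsec.differentiable (by norm_num)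
  let g : ℝ → ℝ := fun p => -(W2 (p, z.2) + p * z.1)
  have hgc : Continuous g := by
    have h1 : Continuous (fun p : ℝ => W2 (p, z.2)) := hsec.continuous
    exact (h1.add (by fun_prop)).neg
  have hconv : ConvexOn ℝ univ g := by
    refine t1_convex g hgc ?_
    intro x κ hκ
    refine ⟨1, one_pos, fun h hh _ => ?_⟩
    have h3 := hs (x, z.2) h
    have e1 : D2 W2 (h, 0) (x, z.2) = W2 (x + h, z.2) + W2 (x - h, z.2) - 2 * W2 (x, z.2) := by
      simp [D2]
    rw [e1] at h3
    have e2 : d2 g h x = -(W2 (x + h, z.2) + W2 (x - h, z.2) - 2 * W2 (x, z.2)) := by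
      simp only [d2, g]
      ring
    rw [e2]
    have h4 : 0 < κ * h ^ 2 := by positivity
    linarith
  have hder : HasDerivAt g 0 p0 := by
    have h3 : HasDerivAt (fun p : ℝ => W2 (p, z.2)) (-z.1) p0 := by
      have h4 := (hdiff p0).hasDerivAt
      have h5 : deriv (fun p : ℝ => W2 (p, z.2)) p0 = -z.1 := hp
      rwa [h5] at h4
    have h6 : HasDerivAt (fun p : ℝ => p * z.1) z.1 p0 := by
      simpa using (hasDerivAt_id p0).mul_const z.1
    have h7 := (h3.add h6).neg
    have h8 : -(-z.1 + z.1) = 0 := by ring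
    rw [h8] at h7
    exact h7
  have hle : ∀ p : ℝ, W2 (p, z.2) + p * z.1 ≤ W2 (p0, z.2) + p0 * z.1 := by
    intro p
    have h0 : g p0 ≤ g p := by
      rcases lt_trichotomy p0 p with hlt | heq | hgt
      · have h3 := hconv.le_slope_of_hasDerivAt (mem_univ p0) (mem_univ p) hlt hder
        rw [slope_def_field, le_div_iff₀ (sub_pos.2 hlt)] at h3
        linarith
      · rw [heq]
      · have h3 := hconv.slope_le_of_hasDerivAt (mem_univ p) (mem_univ p0) hgt hder
        rw [slope_def_field, div_le_iff₀ (sub_pos.2 hgt)] at h3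
        linarith
    simp only [g] at h0
    linarith
  have hbdd : BddAbove (range fun p : ℝ => W2 (p, z.2) + p * z.1) :=
    ⟨W2 (p0, z.2) + p0 * z.1, by rintro _ ⟨p, rfl⟩; exact hle p⟩
  have heq : PU W2 z = W2 (p0, z.2) + p0 * z.1 :=
    le_antisymm (ciSup_le hle) (le_ciSup hbdd p0)
  exact ⟨heq, fun p => heq ▸ hle p⟩

end Pool.Agent.MP_4eca41.G
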